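import Pool.Agent.Lib_helper98.H4.Defs2

/-!
# HN: definitions for the arithmetic part
-/

namespace Pool.Agent.HNA

open Complex MeasureTheory NumberField
open Pool.Agent.H4 (NI PI blw ml)

variable {K : Type} [Field K] [NumberField K]

/-- `u_j(x, ω) = (α^{j+1} - β^{j+1})/(α - β)`, `α + β = x`, `αβ = ω` -/
def uC (x ω : ℂ) : ℕ → ℂ
  | 0 => 1
  | 1 => x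
  | (j + 2) => x * uC x ω (j + 1) - ω * uC x ω j

/-- `t_j(x, ω) = α^j + β^j` -/
def tC (x ω : ℂ) : ℕ → ℂ
  | 0 => 2
  | 1 => x
  | (j + 2) => x * tC x ω (j + 1) - ω * tC x ω j

/-- `∏ (1 - α_i γ_j Y)`, `α₁ + α₂ = x`, `α₁ α₂ = ω`, `γ₁ + γ₂ = y`, `γ₁ γ₂ = ψ` -/
def pC (x ω y ψ Y : ℂ) : ℂ :=
  1 - x * y * Y + (x ^ 2 * ψ + y ^ 2 * ω - 2 * ω * ψ) * Y ^ 2 - x * y * ω * ψ * Y ^ 3 +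
    ω ^ 2 * ψ ^ 2 * Y ^ 4

/-- The Hecke relations with central character `om`. -/
structure HekN (lam om : Ideal (𝓞 K) → ℂ) : Prop where
  one : lam ⊤ = 1
  mul : ∀ 𝔞 𝔟 : Ideal (𝓞 K), IsCoprime 𝔞 𝔟 → lam (𝔞 * 𝔟) = lam 𝔞 * lam 𝔟
  hecke : ∀ 𝔭 : Ideal (𝓞 K), 𝔭.IsPrime → 𝔭 ≠ ⊥ → ∀ j : ℕ,
    lam (𝔭 ^ (j + 2)) = lam 𝔭 * lam (𝔭 ^ (j + 1)) - om 𝔭 * lam (𝔭 ^ j)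
  grow : ∃ C A : ℝ, ∀ 𝔞 : Ideal (𝓞 K), 𝔞 ≠ ⊥ → ‖lam 𝔞‖ ≤ C * (Ideal.absNorm 𝔞 : ℝ) ^ A
  om_one : om ⊤ = 1
  om_mul : ∀ 𝔞 𝔟 : Ideal (𝓞 K), om (𝔞 * 𝔟) = om 𝔞 * om 𝔟
  om_norm : ∀ 𝔭 : Ideal (𝓞 K), 𝔭.IsPrime → 𝔭 ≠ ⊥ → ‖om 𝔭‖ = 1 ∨ om 𝔭 = 0
  om_fin : {𝔭 : Ideal (𝓞 K) | 𝔭.IsPrime ∧ 𝔭 ≠ ⊥ ∧ om 𝔭 = 0}.Finite

/-- `a(n) = ∑_{N𝔞 = n} λ(𝔞)` -/
noncomputable def aN (lam : Ideal (𝓞 K) → ℂ) (n : ℕ) : ℂ :=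
  open scoped Classical in
  ∑' 𝔞 : Ideal (𝓞 K), if 𝔞 ≠ ⊥ ∧ Ideal.absNorm 𝔞 = n then lam 𝔞 else 0

/-- `p` splits: the primes above `p` are `𝔭 ≠ τ𝔭`, of norm `p`. -/
def SplN (τ : 𝓞 K ≃+* 𝓞 K) (p : ℕ) (𝔭 : PI K) : Prop :=
  Ideal.absNorm 𝔭.1 = p ∧ 𝔭.1.map τ ≠ 𝔭.1 ∧
    ∀ 𝔮 : PI K, blw 𝔮.1 = p ↔ 𝔮.1 = 𝔭.1 ∨ 𝔮.1 = 𝔭.1.map τ

/-- `p` is inert -/
def InrN (τ : 𝓞 K ≃+* 𝓞 K) (p : ℕ) (𝔭 : PI K) : Prop :=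
  Ideal.absNorm 𝔭.1 = p ^ 2 ∧ 𝔭.1.map τ = 𝔭.1 ∧ ∀ 𝔮 : PI K, blw 𝔮.1 = p ↔ 𝔮.1 = 𝔭.1

/-- `h_i = ∑_j u_j(x, ω) u_{i-j}(y, ψ)` -/
noncomputable def hC (x ω y ψ : ℂ) (i : ℕ) : ℂ :=
  ∑ j ∈ Finset.range (i + 1), uC x ω j * uC y ψ (i - j)

/-- `P_j = t_j(x, ω) + t_j(y, ψ)` -/
noncomputable def PC (x ω y ψ : ℂ) (j : ℕ) : ℂ := tC x ω j + tC y ψ j

/-- `|t_j(𝔭) + t_j(τ𝔭)|²/(2j)`, with `j + 1` for `j` -/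
noncomputable def SvN (τ : 𝓞 K ≃+* 𝓞 K) (lam om : Ideal (𝓞 K) → ℂ) (q : PI K × ℕ) : ℝ :=
  ‖PC (lam q.1.1) (om q.1.1) (lam (q.1.1.map τ)) (om (q.1.1.map τ)) (q.2 + 1)‖ ^ 2 /
    (2 * (q.2 + 1))

open scoped Classical in
/-- `SvN` at the primes not above the primes in `B` -/
noncomputable def SBN (τ : 𝓞 K ≃+* 𝓞 K) (lam om : Ideal (𝓞 K) → ℂ) (B : Finset ℕ)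
    (q : PI K × ℕ) : ℝ :=
  if blw q.1.1 ∈ B then 0 else SvN τ lam om q

/-- the Rankin-Selberg input: `(w-1) L(2w, om·om') ∑ lam(𝔞) lam'(𝔞)‾ N𝔞^{-w}` is entire -/
def RSin (lam om lam' om' : Ideal (𝓞 K) → ℂ) : Prop :=
  ∃ (E : ℂ → ℂ) (A : ℝ), Differentiable ℂ E ∧ ∀ w : ℂ, A < w.re →
    E w = (w - 1) * ((∑' 𝔞 : NI K, om 𝔞.1 * (starRingEnd ℂ) (om' 𝔞.1) *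
        (Ideal.absNorm 𝔞.1 : ℂ) ^ (-(2 * w))) *
      ∑' 𝔞 : NI K, lam 𝔞.1 * (starRingEnd ℂ) (lam' 𝔞.1) * (Ideal.absNorm 𝔞.1 : ℂ) ^ (-w))

end Pool.Agent.HNA
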