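import Pool.Agent.Lib_helper98.HN.Defs

/-! # HN: the conjugate form (definitions) -/

namespace Pool.Agent.HSG.N

open Complex MeasureTheory Filter Topology UpperHalfPlane NumberField IsDedekindDomain
open scoped nonZeroDivisors MatrixGroups ENNReal

variable {K : Type} [Field K] [NumberField K]

/-- the automorphism of the ring of integers -/
noncomputable def tO (τ : K ≃+* K) : 𝓞 K ≃+* 𝓞 K := RingOfIntegers.mapRingEquiv τ

theorem tO_coe (τ : K ≃+* K) (x : 𝓞 K) : ((tO τ x : 𝓞 K) : K) = τ x := rfl

theorem tO_symm_coe (τ : K ≃+* K) (x : 𝓞 K) : (((tO τ).symm x : 𝓞 K) : K) = τ.symm x := rfl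

/-- the image of a submodule of `K` -/
def subT (τ : K ≃+* K) (M : Submodule (𝓞 K) K) : Submodule (𝓞 K) K where
  carrier := {x | τ.symm x ∈ M}
  add_mem' := fun {a b} ha hb => by
    show τ.symm (a + b) ∈ M
    rw [map_add]
    exact M.add_mem ha hb
  zero_mem' := by
    show τ.symm 0 ∈ M
    rw [map_zero]
    exact M.zero_mem
  smul_mem' := fun c x hx => by
    show τ.symm (c • x) ∈ M
    have h : τ.symm (c • x) = ((tO τ).symm c) • τ.symm x := by
      rw [Algebra.smul_def, Algebra.smul_def, map_mul]
      rfl
    rw [h]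
    exact M.smul_mem _ hx

/-- the conjugate fractional ideal -/
noncomputable def idT (τ : K ≃+* K) (a : Id K) : Id K := toId (subT τ a.m)

/-- the image of a submodule of `K²` -/
def subT2 (τ : K ≃+* K) (M : Submodule (𝓞 K) (Fin 2 → K)) : Submodule (𝓞 K) (Fin 2 → K) where
  carrier := {x | (fun i => τ.symm (x i)) ∈ M}
  add_mem' := fun {a b} ha hb => by
    show (fun i => τ.symm ((a + b) i)) ∈ M
    have h : (fun i => τ.symm ((a + b) i)) = (fun i => τ.symm (a i)) + fun i => τ.symm (b i) := by
      funext i
      simp
    rw [h]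
    exact M.add_mem ha hb
  zero_mem' := by
    show (fun i => τ.symm ((0 : Fin 2 → K) i)) ∈ M
    have h : (fun i => τ.symm ((0 : Fin 2 → K) i)) = 0 := by
      funext i
      simp
    rw [h]
    exact M.zero_mem
  smul_mem' := fun c x hx => by
    show (fun i => τ.symm ((c • x) i)) ∈ M
    have h : (fun i => τ.symm ((c • x) i)) = ((tO τ).symm c) • fun i => τ.symm (x i) := by
      funext i
      rw [Pi.smul_apply, Pi.smul_apply, Algebra.smul_def, Algebra.smul_def, map_mul]
      rfl
    rw [h]
    exact M.smul_mem _ hx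

theorem mem_subT2 (τ : K ≃+* K) (M : Submodule (𝓞 K) (Fin 2 → K)) (x : Fin 2 → K) :
    x ∈ subT2 τ M ↔ (fun i => τ.symm (x i)) ∈ M := Iff.rfl

theorem subT2_fg (τ : K ≃+* K) {M : Submodule (𝓞 K) (Fin 2 → K)} (h : M.FG) :
    (subT2 τ M).FG := by
  classical
  obtain ⟨S, hS⟩ := h
  refine ⟨S.image (fun v => fun i => τ (v i)), le_antisymm ?_ ?_⟩
  · rw [Submodule.span_le]
    intro x hx
    rw [Finset.mem_coe, Finset.mem_image] at hx
    obtain ⟨v, hv, rfl⟩ := hx
    rw [SetLike.mem_coe, mem_subT2]
    simp only [RingEquiv.symm_apply_apply]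
    rw [← hS]
    exact Submodule.subset_span hv
  · intro x hx
    rw [mem_subT2, ← hS] at hx
    have key : ∀ y ∈ Submodule.span (𝓞 K) (S : Set (Fin 2 → K)), (fun i => τ (y i)) ∈
        Submodule.span (𝓞 K) ((S.image (fun v => fun i => τ (v i)) : Finset (Fin 2 → K)) :
          Set (Fin 2 → K)) := by
      intro y hy
      induction hy using Submodule.span_induction with
      | mem v hv =>
        exact Submodule.subset_span (Finset.mem_coe.mpr (Finset.mem_image_of_mem _ hv))
      | zero => simp only [Pi.zero_apply, map_zero]; exact Submodule.zero_mem _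
      | add a b _ _ ha hb =>
        have h : (fun i => τ ((a + b) i)) = (fun i => τ (a i)) + fun i => τ (b i) := by
          funext i
          simp
        rw [h]
        exact Submodule.add_mem _ ha hb
      | smul c a _ ha =>
        have h : (fun i => τ ((c • a) i)) = (tO τ c) • fun i => τ (a i) := by
          funext i
          rw [Pi.smul_apply, Pi.smul_apply, Algebra.smul_def, Algebra.smul_def, map_mul]
          rfl
        rw [h]
        exact Submodule.smul_mem _ _ ha
    have h := key _ hx
    simpa using h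

theorem subT2_top (τ : K ≃+* K) {M : Submodule (𝓞 K) (Fin 2 → K)}
    (h : Submodule.span K (M : Set (Fin 2 → K)) = ⊤) :
    Submodule.span K (subT2 τ M : Set (Fin 2 → K)) = ⊤ := by
  rw [eq_top_iff]
  intro x _
  have key : ∀ y ∈ Submodule.span K (M : Set (Fin 2 → K)), (fun i => τ (y i)) ∈
      Submodule.span K (subT2 τ M : Set (Fin 2 → K)) := by
    intro y hy
    induction hy using Submodule.span_induction with
    | mem v hv =>
      refine Submodule.subset_span ?_
      rw [SetLike.mem_coe, mem_subT2]
      simpa using hv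
    | zero => simp only [Pi.zero_apply, map_zero]; exact Submodule.zero_mem _
    | add a b _ _ ha hb =>
      have h : (fun i => τ ((a + b) i)) = (fun i => τ (a i)) + fun i => τ (b i) := by
        funext i
        simp
      rw [h]
      exact Submodule.add_mem _ ha hb
    | smul c a _ ha =>
      have h : (fun i => τ ((c • a) i)) = (τ c) • fun i => τ (a i) := by
        funext i
        simp
      rw [h]
      exact Submodule.smul_mem _ _ ha
  have h2 := key (fun i => τ.symm (x i)) (by rw [h]; exact Submodule.mem_top)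
  simpa using h2

/-- the conjugate lattice -/
noncomputable def latT (τ : K ≃+* K) (L : Lat K) : Lat K where
  M := subT2 τ L.M
  fg := subT2_fg τ L.fg
  top := subT2_top τ L.top

/-- the composition of an embedding with the automorphism -/
def wT (τ : K ≃+* K) (w : Em K) : Em K := w.comp (τ : K →+* K)

/-- the conjugate form -/
noncomputable def Ft (τ : K ≃+* K) (F : (Em K → ℍ) → Lat K → (Fin 2 → K) → ℂ)
    (z : Em K → ℍ) (L : Lat K) (v : Fin 2 → K) : ℂ :=
  F (fun w => z (wT τ w)) (latT τ L) (fun i => τ (v i))

end Pool.Agent.HSG.N
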