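import Pool.Agent.Lib_helper98.HN.Defs
import Pool.Agent.Lib_helper98.HN.DefsE
import Pool.Agent.Lib_helper98.HN.DefsT

/-! # HN: ideals and fractional ideals (definitions) -/

namespace Pool.Agent.HSG.N

open Complex MeasureTheory Filter Topology UpperHalfPlane NumberField IsDedekindDomain
open scoped nonZeroDivisors MatrixGroups ENNReal
open Pool.Agent.H4 (NI PI blw ml)

variable {K : Type} [Field K] [NumberField K]

/-- the fractional ideal of a nonzero ideal -/
noncomputable def idOf (𝔞 : NI K) : Id K :=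
  Units.mk0 ((𝔞.1 : Ideal (𝓞 K)) : FractionalIdeal (𝓞 K)⁰ K) (by simpa using 𝔞.2)

open scoped Classical in
/-- a function of fractional ideals as a function of ideals -/
noncomputable def lamI (lam : Id K → ℂ) (𝔞 : Ideal (𝓞 K)) : ℂ :=
  if h : 𝔞 ≠ ⊥ then lam (idOf ⟨𝔞, h⟩) else 0

end Pool.Agent.HSG.N
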