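import Pool.Agent.Lib_helper98.HN.Defs

/-!
# HN: definitions for the Hecke part and for the analytic part
-/

namespace Pool.Agent.HSG.N

open Complex MeasureTheory Filter Topology UpperHalfPlane NumberField IsDedekindDomain
open scoped nonZeroDivisors MatrixGroups ENNReal

variable {K : Type} [Field K] [NumberField K]

/-- the point `(e^v z, e^{-v} z)` -/
noncomputable def pz (w0 : Em K) (v : ℝ) (z : ℂ) : Em K → ℍ :=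
  fun w => ofComplex (((v2 w0 (Real.exp v) (Real.exp (-v)) w : ℝ) : ℂ) * z)

/-- `∫_0^ℓ f_b(e^v z N(b)^{-1/2}, e^{-v} z N(b)^{-1/2}) e^{((k_0-k_1)/2 + i(μ_0-μ_1))v} dv`,
times `N(b)^{-(k_0+k_1)/4}` -/
noncomputable def Gb (w0 w1 : Em K) (ℓ : ℝ) (k : Em K → ℕ) (μ : Em K → ℝ)
    (F : (Em K → ℍ) → Lat K → (Fin 2 → K) → ℂ) (b : Id K) (z : ℂ) : ℂ :=
  ((nI b ^ (-(((k w0 : ℝ) + k w1) / 4)) : ℝ) : ℂ) *
    ∫ v in (0 : ℝ)..ℓ, F (pz w0 v (((nI b ^ (-(1 / 2) : ℝ) : ℝ) : ℂ) * z)) (Lat.ds b 1) ![0, 1] *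
      cexp ((((k w0 : ℂ) - k w1) / 2 + (μ w0 - μ w1) * Complex.I) * v)

/-- the sum over the narrow classes -/
noncomputable def GG [Fintype (NCl K)] (w0 w1 : Em K) (ℓ : ℝ) (k : Em K → ℕ) (μ : Em K → ℝ)
    (F : (Em K → ℍ) → Lat K → (Fin 2 → K) → ℂ) (z : ℂ) : ℂ :=
  ∑ κ : NCl K, Gb w0 w1 ℓ k μ F κ.out z

/-- A holomorphic function on the upper half plane whose Mellin transform is a completed
`L`-function: `m` is the sum of the weights, `Q` the square root of the norm of the level. -/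
structure HK (m : ℕ) (Q : ℝ) (G : ℂ → ℂ) : Prop where
  mpos : 1 ≤ m
  qpos : 0 < Q
  holo : DifferentiableOn ℂ G {z | 0 < z.im}
  bdd : ∃ C : ℝ, ∀ z : ℂ, 0 < z.im → ‖G z‖ ≤ C * z.im ^ (-((m : ℝ) / 2))
  dec : ∃ C c : ℝ, 0 < c ∧ ∀ z : ℂ, 1 ≤ z.im → ‖G z‖ ≤ C * Real.exp (-(c * z.im))
  fe : ∃ W : ℂ, ‖W‖ = 1 ∧ ∀ z : ℂ, 0 < z.im → G (-1 / z) =
    W * ((Q ^ (-((m : ℝ) / 2)) : ℝ) : ℂ) * z ^ m *
      (starRingEnd ℂ) (G (-(starRingEnd ℂ) z / Q))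

/-- the Mellin transform `2 Q^s ∫_0^∞ G(iρ) ρ^{2s-1+m/2} dρ/ρ` -/
noncomputable def LamH (m : ℕ) (Q : ℝ) (G : ℂ → ℂ) (s : ℂ) : ℂ :=
  2 * (Q : ℂ) ^ s * mellin (fun ρ : ℝ => G (Complex.I * (ρ : ℂ))) (2 * s - 1 + (m : ℂ) / 2)

end Pool.Agent.HSG.N

namespace Pool.Agent.HNA

open Complex MeasureTheory

/-- The analytic properties of a completed `L`-function with gamma factor
`Γ(s+α₀) Γ(s+α₁)` and large first moment. -/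
structure PkgN (α : Fin 2 → ℂ) (a : ℕ → ℂ) (Λ : ℂ → ℂ) : Prop where
  diff : Differentiable ℂ Λ
  ser : ∃ (A q : ℝ) (c₀ : ℂ), 0 < q ∧ c₀ ≠ 0 ∧ LSeriesSummable a A ∧ ∀ s : ℂ, A ≤ s.re →
    Λ s = c₀ * (q : ℂ) ^ s * (Gamma (s + α 0) * Gamma (s + α 1)) * LSeries a s
  dec : ∀ θ x y : ℝ, 0 ≤ θ → θ < Real.pi / 2 → ∃ C : ℝ, ∀ s : ℂ, x ≤ s.re → s.re ≤ y →
    ‖Λ s‖ ≤ C * Real.exp (-(2 * θ * |s.im|))
  bd : ∃ C : ℝ, ∀ θ : ℝ, 0 ≤ θ → θ < Real.pi / 2 →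
    ‖∫ t : ℝ, Λ (1 / 2 + t * I) * ((Real.exp (2 * θ * t) : ℝ) : ℂ)‖ ≤
      C * Real.cos θ ^ (-((α 0).re + (α 1).re + 1))
  real : ∃ ω : ℂ, ‖ω‖ = 1 ∧ ∀ t : ℝ, (ω * Λ (1 / 2 + t * I)).im = 0

/-- the shifts of the gamma factor: `(k_j - 1)/2 + i μ_j` -/
noncomputable def al (k : Fin 2 → ℕ) (μ : Fin 2 → ℝ) (j : Fin 2) : ℂ :=
  ((k j : ℂ) - 1) / 2 + μ j * I

end Pool.Agent.HNA
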