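import Pool.Agent.Lib_helper98.HN.Defs

/-!
# HN: definitions for the Rankin-Selberg part
-/

namespace Pool.Agent.HSG.N

open Complex MeasureTheory Filter Topology UpperHalfPlane NumberField IsDedekindDomain
open scoped nonZeroDivisors MatrixGroups ENNReal

variable {K : Type} [Field K] [NumberField K]

/-- the point `x + iy` -/
noncomputable def xyp {ι : Type} (x y : ι → ℝ) : ι → ℍ :=
  fun w => ofComplex (((x w : ℝ) : ℂ) + ((y w : ℝ) : ℂ) * Complex.I)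

/-- the kernel as a function of real vectors -/
noncomputable def kapR (m : Em K → ℤ) (t : Em K → ℝ) (z : Em K → ℍ) (x y : Em K → ℝ) : ℂ :=
  ∏ w, phm (m w) ((((x w : ℝ) : ℂ) * (z w : ℂ) + ((y w : ℝ) : ℂ)) / (√(z w).im : ℝ)) *
    ((Real.exp (-(Real.pi * (t w * (‖((x w : ℝ) : ℂ) * (z w : ℂ) + ((y w : ℝ) : ℂ)‖ ^ 2 /
      (z w).im)))) : ℝ) : ℂ)

/-- `∏_w t_w^{s + |m_w|/2 + i(μ_w - μ'_w)}` -/
noncomputable def hh (k k' : Em K → ℕ) (μ μ' : Em K → ℝ) (s : ℂ) (t : Em K → ℝ) : ℂ :=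
  ∏ w, ((t w : ℝ) : ℂ) ^ (s + ((mw k k' w).natAbs : ℂ) / 2 + (μ w - μ' w) * Complex.I)

/-- the main term of the Poisson formula -/
noncomputable def QQ (ω : ExW K) (n r : Id K) (k k' : Em K → ℕ)
    (F F' : (Em K → ℍ) → Lat K → (Fin 2 → K) → ℂ) : ℂ :=
  ∫ x in {x : XX K | x.2.det = r}, (ω.w x : ℂ) *
    ∑ ρ ∈ Rp n x.2, PH k k' F F' x.1 x.2 ρ ∂(mu0 K)

open scoped Classical in
/-- the remainder in the Poisson formula -/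
noncomputable def RR (ω : ExW K) (n r c : Id K) (k k' : Em K → ℕ)
    (F F' : (Em K → ℍ) → Lat K → (Fin 2 → K) → ℂ) (t : Em K → ℝ) : ℂ :=
  ∫ x in {x : XX K | x.2.det = r}, (ω.w x : ℂ) *
    ∑ ρ ∈ Rp n x.2, PH k k' F F' x.1 x.2 ρ *
      ∑' u : Fin 2 → K, (if u ∈ (x.2.sm c).M ∧ u ≠ 0 then
        edt u ρ * kap (mw k k') t x.1 u else 0) ∂(mu0 K)

/-- the point `(T e^v, T e^{-v})` -/
noncomputable def tv (w0 : Em K) (T v : ℝ) : Em K → ℝ :=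
  v2 w0 (T * Real.exp v) (T * Real.exp (-v))

/-- `(|m_0| - |m_1|)/2 + i(η_0 - η_1)`, `η = μ - μ'` -/
noncomputable def cc (w0 w1 : Em K) (k k' : Em K → ℕ) (μ μ' : Em K → ℝ) : ℂ :=
  (((mw k k' w0).natAbs : ℂ) - (mw k k' w1).natAbs) / 2 +
    ((μ w0 - μ' w0) - (μ w1 - μ' w1) : ℝ) * Complex.I

/-- `j_r(T) = T^{(|m_0|+|m_1|)/2} ∫_0^{2ℓ} J_r(T e^v, T e^{-v}) e^{cv} dv` -/
noncomputable def jj (w0 w1 : Em K) (ℓ : ℝ) (ω : ExW K) (n r : Id K) (k k' : Em K → ℕ)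
    (μ μ' : Em K → ℝ) (F F' : (Em K → ℍ) → Lat K → (Fin 2 → K) → ℂ) (T : ℝ) : ℂ :=
  ((T ^ ((((mw k k' w0).natAbs : ℝ) + (mw k k' w1).natAbs) / 2) : ℝ) : ℂ) *
    ∫ v in (0 : ℝ)..(2 * ℓ), JJ ω n r k k' F F' (tv w0 T v) * cexp (cc w0 w1 k k' μ μ' * v)

/-- `∫_0^∞ y^{c-2} exp(-4πξy - πA/y) dy` -/
noncomputable def qN (c : ℕ) (ξ A : ℝ) : ℝ :=
  ∫ y in Set.Ioi (0 : ℝ), y ^ ((c : ℝ) - 2) * Real.exp (-(4 * Real.pi * ξ * y) - Real.pi * A / y)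

/-- `ξ^{(k+k')/2 + i(μ-μ')}` -/
noncomputable def xkk (k k' : Em K → ℕ) (μ μ' : Em K → ℝ) (ξ : K) : ℂ :=
  ∏ w : Em K, ((w ξ : ℝ) : ℂ) ^ (((k w : ℂ) + k' w) / 2 + (μ w - μ' w) * Complex.I)

/-- `ξ^{(k+k')/2 + i(μ-μ')} ∏_w q_w(ξ_w, t_w)` -/
noncomputable def qt (k k' : Em K → ℕ) (μ μ' : Em K → ℝ) (t : Em K → ℝ) (ξ : K) : ℂ :=
  xkk k k' μ μ' ξ * ((∏ w, qN (min (k w) (k' w)) (w ξ) (t w) : ℝ) : ℂ)

/-- the archimedean factor -/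
noncomputable def Gf (k k' : Em K → ℕ) (μ μ' : Em K → ℝ) (s : ℂ) : ℂ :=
  ∏ w : Em K,
    ((Real.pi : ℂ) ^ (-(s + ((mw k k' w).natAbs : ℂ) / 2 + (μ w - μ' w) * Complex.I)) *
      Gamma (s + ((mw k k' w).natAbs : ℂ) / 2 + (μ w - μ' w) * Complex.I) *
      ((4 * Real.pi : ℂ) ^ (-(s + ((k w : ℂ) + k' w) / 2 - 1 + (μ w - μ' w) * Complex.I)) *
        Gamma (s + ((k w : ℂ) + k' w) / 2 - 1 + (μ w - μ' w) * Complex.I)))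

open scoped Classical in
/-- the `L`-series of the product of the central characters at `2s` -/
noncomputable def LQ (n : Id K) (om om' : Id K → ℂ) (s : ℂ) : ℂ :=
  ∑' g : Id K, if IsInt g ∧ Cop g n then om g * (starRingEnd ℂ) (om' g) *
    ((nI g : ℝ) : ℂ) ^ (-(2 * s)) else 0

/-- the Rankin-Selberg series -/
noncomputable def DQ (lam lam' : Id K → ℂ) (s : ℂ) : ℂ :=
  ∑' m : Id K, lam m * (starRingEnd ℂ) (lam' m) * ((nI m : ℝ) : ℂ) ^ (-s)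

end Pool.Agent.HSG.N
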